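import Mathlib
import Pool.Agent.H.MP_f65ae4_nt.A

namespace Pool.Agent.Results.MP_1cf91b_nt.Yes

open Nat Finset Pool.Agent.H.MP_f65ae4_nt

lemma floor_ineq (q c j : ℕ) (hq : q % 2 = 1) (h3 : 3 ≤ q) :
    (c + j + 2 + q / 2) / q + j / q + (3 * c + j + 2) / q + (c + j + 1) / q ≤
      (2 * c + j + 1 + q / 2) / q + (3 * c + 3 * j + 3) / q := by
  have hq0 : 0 < q := by omega
  obtain ⟨C, r, hr, rfl⟩ : ∃ C r, r < q ∧ c = q * C + r :=
    ⟨c / q, c % q, Nat.mod_lt _ hq0, (Nat.div_add_mod c q).symm⟩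
  obtain ⟨J, s, hs, rfl⟩ : ∃ C r, r < q ∧ j = q * C + r :=
    ⟨j / q, j % q, Nat.mod_lt _ hq0, (Nat.div_add_mod j q).symm⟩
  rw [show q * C + r + (q * J + s) + 2 + q / 2 = q * (C + J) + (r + s + 2 + q / 2) by ring,
    show 3 * (q * C + r) + (q * J + s) + 2 = q * (3 * C + J) + (3 * r + s + 2) by ring,
    show q * C + r + (q * J + s) + 1 = q * (C + J) + (r + s + 1) by ring,
    show 2 * (q * C + r) + (q * J + s) + 1 + q / 2 = q * (2 * C + J) + (2 * r + s + 1 + q / 2) by ring,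
    show 3 * (q * C + r) + 3 * (q * J + s) + 3 = q * (3 * C + 3 * J) + (3 * r + 3 * s + 3) by ring]
  simp only [Nat.mul_add_div hq0, Nat.div_eq_of_lt hs]
  have e1 := Nat.div_mul_le_self (r + s + 2 + q / 2) q
  have e2 := Nat.div_mul_le_self (3 * r + s + 2) q
  have e3 := Nat.div_mul_le_self (r + s + 1) q
  have e4 := Nat.lt_div_mul_add (a := 2 * r + s + 1 + q / 2) hq0
  have e5 := Nat.lt_div_mul_add (a := 3 * r + 3 * s + 3) hq0
  have b1 : (r + s + 2 + q / 2) / q < 3 := Nat.div_lt_of_lt_mul (by omega)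
  have b2 : (3 * r + s + 2) / q < 4 := Nat.div_lt_of_lt_mul (by omega)
  have b3 : (r + s + 1) / q < 2 := Nat.div_lt_of_lt_mul (by omega)
  have b4 : (2 * r + s + 1 + q / 2) / q < 4 := Nat.div_lt_of_lt_mul (by omega)
  have b5 : (3 * r + 3 * s + 3) / q < 6 := Nat.div_lt_of_lt_mul (by omega)
  have key : (r + s + 2 + q / 2) / q + (3 * r + s + 2) / q + (r + s + 1) / q ≤
      (2 * r + s + 1 + q / 2) / q + (3 * r + 3 * s + 3) / q := by
    generalize (r + s + 2 + q / 2) / q = a1 at *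
    generalize (3 * r + s + 2) / q = a2 at *
    generalize (r + s + 1) / q = a3 at *
    generalize (2 * r + s + 1 + q / 2) / q = a4 at *
    generalize (3 * r + 3 * s + 3) / q = a5 at *
    interval_cases a1 <;> interval_cases a2 <;> interval_cases a3 <;> interval_cases a4 <;>
      interval_cases a5 <;> omega
  omega

lemma dvdZ (c j : ℕ) (h : 1 ≤ c + j) :
    2 * (O (c + j + 2) * j ! * (3 * c + j + 2)! * (c + j + 1)!) ∣
      2 ^ c * O (2 * c + j + 1) * (3 * c + 3 * j + 3)! := by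
  have o1 := (O_pos (c + j + 2)).ne'
  have o3 := (O_pos (2 * c + j + 1)).ne'
  have f1 := factorial_ne_zero (c + j + 1)
  have f2 := factorial_ne_zero j
  have f3 := factorial_ne_zero (3 * c + j + 2)
  have f4 := factorial_ne_zero (3 * c + 3 * j + 3)
  refine (Nat.factorization_prime_le_iff_dvd (by positivity) (by positivity)).1 fun p hp => ?_
  rw [Nat.factorization_mul (by norm_num) (by positivity), Nat.factorization_mul (by positivity) f1,
    Nat.factorization_mul (by positivity) f3, Nat.factorization_mul o1 f2,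
    Nat.factorization_mul (by positivity) f4, Nat.factorization_mul (by positivity) o3,
    Nat.factorization_pow]
  simp only [Finsupp.add_apply, Finsupp.smul_apply, Nat.Prime.factorization Nat.prime_two,
    Finsupp.single_apply]
  by_cases h2 : 2 = p
  · subst h2
    simp only [vO2, if_true, smul_eq_mul, mul_one]
    have a1 := v2fact_lt (c + j) (by omega)
    have d1 : (2 * j)! * (3 * c + j + 2)! * (c + j + 1) ∣ (3 * c + 3 * j + 3)! := by
      have := Nat.factorial_mul_factorial_dvd_factorial_add (2 * j) (3 * c + j + 2)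
      rw [show 3 * c + 3 * j + 3 = (2 * j + (3 * c + j + 2)) + 1 by ring, factorial_succ, mul_comm]
      exact Nat.mul_dvd_mul ⟨3, by omega⟩ this
    have d2 := (Nat.factorization_prime_le_iff_dvd (by positivity) f4).2 d1 2 Nat.prime_two
    rw [O_fact, Nat.factorization_mul (by have := O_pos j; positivity) (by omega),
      Nat.factorization_mul (by have := O_pos j; positivity) f3,
      Nat.factorization_mul (by positivity) (O_pos j).ne',
      Nat.factorization_mul (by positivity) f2, Nat.factorization_pow] at d2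
    rw [factorial_succ (c + j), Nat.factorization_mul (by omega) (factorial_ne_zero _)]
    simp only [Finsupp.add_apply, Finsupp.smul_apply, Nat.Prime.factorization Nat.prime_two,
      Finsupp.single_apply, vO2, if_true, smul_eq_mul, mul_one] at d2 ⊢
    omega
  · simp only [if_neg h2, smul_zero, zero_add]
    have h2' : p ≠ 2 := Ne.symm h2
    set b := 6 * c + 4 * j + 5
    rw [vO hp h2' _ b (by omega), vO hp h2' _ b (by omega), vfact hp _ b (by omega),
      vfact hp _ b (by omega), vfact hp _ b (by omega), vfact hp _ b (by omega),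
      ← sum_add_distrib, ← sum_add_distrib, ← sum_add_distrib, ← sum_add_distrib]
    refine sum_le_sum fun i hi => floor_ineq _ _ _ (Nat.odd_iff.1 ((hp.odd_of_ne_two h2').pow)) ?_
    have h3 : 3 ≤ p := by have := hp.two_le; omega
    calc 3 ≤ p ^ 1 := by simpa using h3
      _ ≤ p ^ i := Nat.pow_le_pow_right hp.pos (mem_Ico.1 hi).1

def Cb (n : ℕ) : ℚ := 2 ^ n * O n / n !

lemma Cb_eq (n : ℕ) : ((2 * n).choose n : ℚ) = Cb n := by
  have h := Nat.add_choose_mul_factorial_mul_factorial n n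
  rw [← two_mul, O_fact] at h
  have h' : ((2 * n).choose n : ℚ) * n ! * n ! = 2 ^ n * n ! * O n := by exact_mod_cast h
  unfold Cb
  have : (n ! : ℚ) ≠ 0 := by positivity
  field_simp
  field_simp at h'
  linarith

lemma Opos (m : ℕ) : (0 : ℚ) < O m := by exact_mod_cast O_pos m
lemma Os (m : ℕ) : (O (m + 1) : ℚ) = O m * (2 * m + 1) := by rw [O]; push_cast; ring
lemma Fs (m : ℕ) : ((m + 1)! : ℚ) = (m + 1) * m ! := by rw [factorial_succ]; push_cast; ring

lemma M_eq (n : ℕ) : ((2 * n).choose n : ℚ) ^ 2 * ((3 * n).choose n : ℚ) =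
    2 ^ n * O n * (3 * n)! / (n ! : ℚ) ^ 4 := by
  have h := Nat.add_choose_mul_factorial_mul_factorial (2 * n) n
  rw [show 2 * n + n = 3 * n by ring, O_fact] at h
  have h' : ((3 * n).choose n : ℚ) * (2 ^ n * n ! * O n) * n ! = (3 * n)! := by exact_mod_cast h
  rw [Cb_eq, ← h']
  unfold Cb
  field_simp

def T (c j : ℕ) : ℚ := (-1) ^ c * (c + j + 1) * 2 ^ (2 * c + j) * O (2 * c + j + 1) *
  (3 * c + 3 * j + 3)! / (j ! * (3 * c + j + 2)! * ((c + j + 1)! : ℚ) ^ 2)

def Phi (k j : ℕ) : ℚ := (-1) ^ k * 2 ^ (2 * k + j) * (12 * k + 10 * j + 3) * O (2 * k + j) *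
  (3 * k + 3 * j)! / (j ! * (3 * k + j)! * ((k + j)! : ℚ) ^ 2)

lemma wz1 (c j : ℕ) : T c (j + 1) - 8 * T c j = Phi c (j + 1) - Phi (c + 1) j := by
  unfold T Phi
  have := Opos (2 * c + j + 1)
  rw [show 2 * c + (j + 1) + 1 = 2 * c + j + 1 + 1 by ring,
    show 3 * c + 3 * (j + 1) + 3 = 3 * c + 3 * j + 3 + 1 + 1 + 1 by ring,
    show 3 * c + (j + 1) + 2 = 3 * c + j + 1 + 1 + 1 by ring,
    show c + (j + 1) + 1 = c + j + 1 + 1 by ring,
    show 3 * c + j + 2 = 3 * c + j + 1 + 1 by ring,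
    show 2 * c + (j + 1) = 2 * c + j + 1 by ring,
    show 3 * c + 3 * (j + 1) = 3 * c + 3 * j + 3 by ring,
    show 3 * c + (j + 1) = 3 * c + j + 1 by ring, show c + (j + 1) = c + j + 1 by ring,
    show 2 * (c + 1) + j = 2 * c + j + 1 + 1 by ring,
    show 3 * (c + 1) + 3 * j = 3 * c + 3 * j + 3 by ring,
    show 3 * (c + 1) + j = 3 * c + j + 1 + 1 + 1 by ring, show c + 1 + j = c + j + 1 by ring]
  rw [Os (2 * c + j + 1), Fs (3 * c + 3 * j + 3 + 1 + 1), Fs (3 * c + 3 * j + 3 + 1),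
    Fs (3 * c + 3 * j + 3), Fs (3 * c + j + 1 + 1), Fs (3 * c + j + 1), Fs (c + j + 1), Fs j]
  push_cast
  field_simp
  ring

lemma wz2 (c : ℕ) : T c 0 = Phi c 0 := by
  unfold T Phi
  have := Opos (2 * c)
  simp only [mul_zero, add_zero, show 3 * c + 3 = 3 * c + 1 + 1 + 1 from rfl,
    show 3 * c + 2 = 3 * c + 1 + 1 from rfl, Os, Fs]
  push_cast
  field_simp
  ring

def S (n : ℕ) : ℚ := ∑ k ∈ range n,
  (10 * k + 3) * (((2 * k).choose k : ℚ) ^ 2 * ((3 * k).choose k : ℚ)) * 8 ^ (n - 1 - k)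

lemma S_succ (n : ℕ) : S (n + 1) = 8 * S n + Phi 0 n := by
  unfold S
  rw [sum_range_succ, mul_sum]
  congr 1
  · refine sum_congr rfl fun k hk => ?_
    have := mem_range.1 hk
    rw [show n + 1 - 1 - k = (n - 1 - k) + 1 by omega, pow_succ]; ring
  · rw [M_eq]
    unfold Phi
    simp only [mul_zero, zero_add, Nat.add_sub_cancel, Nat.sub_self]
    push_cast
    field_simp
    ring

lemma S_eq (n : ℕ) : S n = ∑ c ∈ range n, T c (n - 1 - c) := by
  induction n with
  | zero => simp [S]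
  | succ n ih =>
    rw [S_succ, ih, sum_range_succ]
    have h : ∑ c ∈ range n, T c (n + 1 - 1 - c) - 8 * ∑ c ∈ range n, T c (n - 1 - c) =
        ∑ c ∈ range n, (Phi c (n - c) - Phi (c + 1) (n - (c + 1))) := by
      rw [mul_sum, ← sum_sub_distrib]
      refine sum_congr rfl fun c hc => ?_
      have := mem_range.1 hc
      rw [show n + 1 - 1 - c = (n - 1 - c) + 1 by omega, wz1,
        show n - c = (n - 1 - c) + 1 by omega, show n - (c + 1) = n - 1 - c by omega]
    rw [sum_range_sub' (fun c => Phi c (n - c))] at h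
    simp only [Nat.sub_zero, Nat.sub_self, Nat.add_sub_cancel] at h ⊢
    rw [wz2]
    linarith

lemma Zex (c j : ℕ) (h : 1 ≤ c + j) : ∃ z : ℤ, T c j =
    (c + j + 1) * (2 * (c + j + 1) + 1) * Cb (c + j + 1) * z := by
  obtain ⟨z, hz⟩ := dvdZ c j h
  refine ⟨(-1) ^ c * z, ?_⟩
  have hz' : (2 : ℚ) ^ c * O (2 * c + j + 1) * (3 * c + 3 * j + 3)! =
      2 * (O (c + j + 2) * j ! * (3 * c + j + 2)! * (c + j + 1)!) * z := by exact_mod_cast hz
  unfold T Cb
  rw [show c + j + 2 = c + j + 1 + 1 from rfl, Os (c + j + 1)] at hz'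
  rw [div_eq_iff (by positivity)]
  push_cast at hz' ⊢
  field_simp
  linear_combination (2 ^ (c + j)) * hz'

theorem result (n : ℕ) (hn : 2 ≤ n) :
    n * (2 * n + 1) * (2 * n).choose n ∣
      ∑ k ∈ range n, (10 * k + 3) * (2 * k).choose k ^ 2 * (3 * k).choose k * 8 ^ (n - 1 - k) := by
  have hz : ∀ c ∈ range n, ∃ z : ℤ, T c (n - 1 - c) = n * (2 * n + 1) * Cb n * z := by
    intro c hc
    obtain ⟨j, rfl⟩ : ∃ j, n = c + j + 1 := ⟨n - 1 - c, by have := mem_range.1 hc; omega⟩
    rw [show c + j + 1 - 1 - c = j by omega]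
    push_cast
    exact Zex c j (by omega)
  choose! z hz using hz
  have h := S_eq n
  rw [sum_congr rfl hz, ← mul_sum, ← Cb_eq] at h
  rw [← Int.natCast_dvd_natCast]
  refine ⟨∑ c ∈ range n, z c, ?_⟩
  have : ((∑ k ∈ range n, (10 * k + 3) * (2 * k).choose k ^ 2 * (3 * k).choose k * 8 ^ (n - 1 - k)
      : ℕ) : ℚ) = S n := by
    unfold S; push_cast
    exact sum_congr rfl fun k _ => by ring
  rw [← this] at h
  exact_mod_cast h

end Pool.Agent.Results.MP_1cf91b_nt.Yes
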